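import Pool.Agent.W196.EM.N

/-!
# EM-G2: lower bound of the bump
-/

set_option autoImplicit false
open Finset
open scoped ComplexConjugate

namespace Pool.Agent.W196.EMG2

open Pool.Agent.W278.EM Pool.Agent.Helper873.NT Pool.Agent.Helper873.Zeta
  Pool.Agent.Helper873.Embed Pool.Agent.Helper873.Alg Pool.Agent.W196.EMN

lemma vs_eq (s : ℂ) (k : ℕ) : vs s k = Complex.exp (-s * (Real.log (pr k) : ℂ)) := by
  have h0 : ((Nat.nth Nat.Prime k : ℕ) : ℂ) ≠ 0 := by
    exact_mod_cast (Nat.prime_nth_prime k).ne_zero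
  unfold vs
  rw [Complex.cpow_def_of_ne_zero h0]
  unfold pr
  rw [Complex.natCast_log, mul_comm]

lemma re_term (l : ℕ) (x t τ : ℝ) (k : ℕ) :
    (conj (vs (pt 0 0 τ) k) * vs (pt l x t) k).re =
      Real.exp (-(1 + x / 2 ^ l) * Real.log (pr k)) * Real.cos ((τ - t) * Real.log (pr k)) := by
  rw [vs_eq, vs_eq, ← Complex.exp_conj, ← Complex.exp_add]
  have e : conj (-pt 0 0 τ * (Real.log (pr k) : ℂ)) + -pt l x t * (Real.log (pr k) : ℂ) =
      ((-(1 + x / 2 ^ l) * Real.log (pr k) : ℝ) : ℂ) +
        (((τ - t) * Real.log (pr k) : ℝ) : ℂ) * Complex.I := by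
    unfold pt
    simp only [map_mul, map_neg, map_add, Complex.conj_ofReal, Complex.conj_I]
    push_cast
    ring
  rw [e, Complex.exp_re, Complex.add_re, Complex.add_im, Complex.ofReal_re, Complex.ofReal_im,
    Complex.re_ofReal_mul, Complex.im_ofReal_mul, Complex.I_re, Complex.I_im, mul_zero, add_zero,
    zero_add, mul_one]

/-- `SN2` for arbitrary finite sets of primes -/
lemma sn2_set {C : ℝ} (hC : 0 < C)
    (h : ∀ (Y : ℝ) (n : ℕ), 1 ≤ Y → (∀ k < n, Real.log (pr k) ≤ Y) →
      ∑ k ∈ range n, Real.log (pr k) / pr k ≤ C * Y)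
    (Y : ℝ) (K : Finset ℕ) (hY : 1 ≤ Y) (hK : ∀ k ∈ K, Real.log (pr k) ≤ Y) :
    ∑ k ∈ K, Real.log (pr k) / pr k ≤ C * Y := by
  rcases K.eq_empty_or_nonempty with rfl | hne
  · simp; positivity
  · have h1 := h Y (K.max' hne + 1) hY (fun k hk => by
      have hle : k ≤ K.max' hne := by omega
      have h2 : pr k ≤ pr (K.max' hne) := by
        unfold pr
        exact_mod_cast Nat.nth_monotone Nat.infinite_setOf_prime hle
      exact (Real.log_le_log (pr_pos k) h2).trans (hK _ (K.max'_mem hne)))
    refine le_trans ?_ h1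
    refine Finset.sum_le_sum_of_subset_of_nonneg ?_ ?_
    · intro k hk
      have := K.le_max' k hk
      rw [mem_range]; omega
    · intro k _ _
      have := log_pr_pos k
      have := pr_pos k
      positivity

theorem sg2_of (h : SN2) : SG2 := by
  obtain ⟨C, hC, h⟩ := h
  have hset := sn2_set hC h
  intro b hb
  set δ : ℝ := 1 / (16 * b * C) with hδ
  have hδ0 : 0 < δ := by positivity
  refine ⟨Real.exp (b * (C / δ + 4 * C) + 1), Real.exp_pos _, fun l m x t τ hml hx ht => ?_⟩
  set xp : ℝ := max x 0 with hxp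
  have hxp0 : 0 ≤ xp := le_max_right _ _
  have h2m : (0 : ℝ) < 2 ^ m := by positivity
  have h2l : (2 : ℝ) ^ m ≤ 2 ^ l := pow_le_pow_right₀ (by norm_num) hml
  have hnorm : ‖gb b m τ (vs (pt l x t))‖ =
      Real.exp (-(b * ∑ k ∈ range (nn m),
        (1 / pr k - (conj (vs (pt 0 0 τ) k) * vs (pt l x t) k).re))) := by
    unfold gb
    rw [Complex.norm_exp, Complex.re_ofReal_mul, Complex.sub_re, Complex.re_sum,
      Complex.ofReal_re, Finset.sum_sub_distrib]
    unfold Hm
    congr 1
    ring
  -- per term estimate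
  have hterm : ∀ k ∈ range (nn m),
      1 / pr k - (conj (vs (pt 0 0 τ) k) * vs (pt l x t) k).re ≤
        (1 / pr k) * min 1 (xp / 2 ^ m * Real.log (pr k)) +
          4 / 2 ^ m * (Real.log (pr k) / pr k) := by
    intro k hk
    have hp0 := pr_pos k
    have hlog := log_pr_pos k
    have hk' : Real.log (pr k) ≤ 2 ^ m := by
      have := log_p_le (2 ^ m) k (mem_range.1 hk)
      unfold pr
      exact_mod_cast this
    set L := Real.log (pr k) with hL
    set σ := x / 2 ^ l with hσ
    set q := Real.exp (-σ * L) with hq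
    have e1 : Real.exp (-(1 + σ) * L) = 1 / pr k * q := by
      rw [hq, one_div, ← Real.exp_log (inv_pos.2 hp0), Real.log_inv, ← hL, ← Real.exp_add]
      congr 1; ring
    rw [re_term, ← hσ, ← hL, e1]
    -- 1 - q ≤ min 1 ..
    have hq0 : 0 < q := Real.exp_pos _
    have hA : 1 - q ≤ min 1 (xp / 2 ^ m * L) := by
      apply le_min
      · linarith
      · have h3 := Real.add_one_le_exp (-σ * L)
        have h4 : σ ≤ xp / 2 ^ m := by
          rw [hσ]
          rcases le_total x 0 with hx0 | hx0
          · have h5 : x / 2 ^ l ≤ 0 := div_nonpos_of_nonpos_of_nonneg hx0 (by positivity)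
            have h6 : 0 ≤ xp / 2 ^ m := by positivity
            linarith
          · rw [hxp, max_eq_left hx0]
            gcongr
        have h5 : σ * L ≤ xp / 2 ^ m * L := by gcongr
        linarith
    have hq2 : q ≤ 2 := by
      have h3 : -σ * L ≤ 1 / 4 := by
        have h4 : -σ ≤ 1 / 4 / 2 ^ l := by
          rw [hσ, ← neg_div]
          gcongr
          linarith
        calc -σ * L ≤ 1 / 4 / 2 ^ l * L := by gcongr
          _ ≤ 1 / 4 / 2 ^ l * 2 ^ l := by
              gcongr
              linarith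
          _ = 1 / 4 := by field_simp
      have h5 := Real.exp_le_exp.2 h3
      have h6 : Real.exp (1 / 4) ≤ 2 := by
        have h7 := Real.exp_one_lt_d9
        have h8 : Real.exp (1 / 4) ^ 4 = Real.exp 1 := by
          rw [← Real.exp_nat_mul]; norm_num
        by_contra hcon
        push Not at hcon
        have : (2 : ℝ) ^ 4 ≤ Real.exp (1 / 4) ^ 4 := by gcongr
        linarith
      linarith
    have hcos : 1 - Real.cos ((τ - t) * L) ≤ 2 / 2 ^ m * L := by
      have h3 : 1 - Real.cos ((τ - t) * L) ≤ |(τ - t) * L| := by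
        rcases le_total 2 |(τ - t) * L| with h4 | h4
        · have := Real.neg_one_le_cos ((τ - t) * L)
          linarith
        · have h5 := Real.one_sub_sq_div_two_le_cos (x := (τ - t) * L)
          have h6 : ((τ - t) * L) ^ 2 = |(τ - t) * L| ^ 2 := (sq_abs _).symm
          have h7 := abs_nonneg ((τ - t) * L)
          nlinarith
      refine h3.trans ?_
      rw [abs_mul, abs_of_pos hlog, abs_sub_comm]
      gcongr
    have hcos0 : 0 ≤ 1 - Real.cos ((τ - t) * L) := by
      have := Real.cos_le_one ((τ - t) * L); linarith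
    have hfin : 1 - q * Real.cos ((τ - t) * L) ≤
        min 1 (xp / 2 ^ m * L) + 4 / 2 ^ m * L := by
      have h3 : 1 - q * Real.cos ((τ - t) * L) =
        (1 - q) + q * (1 - Real.cos ((τ - t) * L)) := by ring
      rw [h3]
      have h4 : q * (1 - Real.cos ((τ - t) * L)) ≤ 2 * (2 / 2 ^ m * L) := by gcongr
      have h5 : 2 * (2 / 2 ^ m * L) = 4 / 2 ^ m * L := by ring
      linarith
    calc 1 / pr k - 1 / pr k * q * Real.cos ((τ - t) * L)
        = 1 / pr k * (1 - q * Real.cos ((τ - t) * L)) := by ring
      _ ≤ 1 / pr k * (min 1 (xp / 2 ^ m * L) + 4 / 2 ^ m * L) := by gcongr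
      _ = _ := by ring
  have hsum := Finset.sum_le_sum hterm
  rw [Finset.sum_add_distrib, ← Finset.mul_sum] at hsum
  have hlog_le : ∀ k ∈ range (nn m), Real.log (pr k) ≤ 2 ^ m := by
    intro k hk
    have := log_p_le (2 ^ m) k (mem_range.1 hk)
    unfold pr
    exact_mod_cast this
  have hone : (1 : ℝ) ≤ 2 ^ m := one_le_pow₀ (by norm_num)
  have hB : 4 / 2 ^ m * ∑ k ∈ range (nn m), Real.log (pr k) / pr k ≤ 4 * C := by
    have h3 := hset (2 ^ m) (range (nn m)) hone hlog_le
    calc 4 / 2 ^ m * ∑ k ∈ range (nn m), Real.log (pr k) / pr k ≤ 4 / 2 ^ m * (C * 2 ^ m) := by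
          gcongr
      _ = 4 * C := by field_simp
  have hA : ∑ k ∈ range (nn m), (1 / pr k) * min 1 (xp / 2 ^ m * Real.log (pr k)) ≤
      2 * C * δ * xp + C / δ := by
    rw [← Finset.sum_filter_add_sum_filter_not (range (nn m))
      (fun k => Real.log (pr k) ≤ δ * 2 ^ m)]
    apply add_le_add
    · -- small primes
      by_cases hY : δ * 2 ^ m < 1 / 2
      · have hemp : (range (nn m)).filter (fun k => Real.log (pr k) ≤ δ * 2 ^ m) = ∅ := by
          apply Finset.filter_eq_empty_iff.2
          intro k _ hcon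
          have h3 := Real.log_le_log (by norm_num) (two_le_pr k)
          have h4 := Real.log_two_gt_d9
          linarith
        rw [hemp, Finset.sum_empty]
        positivity
      · push Not at hY
        have hY1 : max 1 (δ * 2 ^ m) ≤ 2 * (δ * 2 ^ m) := max_le (by linarith) (by linarith)
        have h3 := hset (max 1 (δ * 2 ^ m))
          ((range (nn m)).filter (fun k => Real.log (pr k) ≤ δ * 2 ^ m)) (le_max_left _ _)
          (fun k hk => (Finset.mem_filter.1 hk).2.trans (le_max_right _ _))
        calc ∑ k ∈ (range (nn m)).filter (fun k => Real.log (pr k) ≤ δ * 2 ^ m),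
              (1 / pr k) * min 1 (xp / 2 ^ m * Real.log (pr k))
            ≤ ∑ k ∈ (range (nn m)).filter (fun k => Real.log (pr k) ≤ δ * 2 ^ m),
              xp / 2 ^ m * (Real.log (pr k) / pr k) := by
              refine Finset.sum_le_sum fun k _ => ?_
              have hp0 := pr_pos k
              calc (1 / pr k) * min 1 (xp / 2 ^ m * Real.log (pr k))
                  ≤ (1 / pr k) * (xp / 2 ^ m * Real.log (pr k)) := by
                    gcongr
                    exact min_le_right _ _
                _ = _ := by ring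
          _ = xp / 2 ^ m * ∑ k ∈ (range (nn m)).filter (fun k => Real.log (pr k) ≤ δ * 2 ^ m),
              (Real.log (pr k) / pr k) := by rw [Finset.mul_sum]
          _ ≤ xp / 2 ^ m * (C * (2 * (δ * 2 ^ m))) := by
              gcongr
              exact h3.trans (by gcongr)
          _ = 2 * C * δ * xp := by field_simp
    · have h3 := hset (2 ^ m)
          ((range (nn m)).filter (fun k => ¬ Real.log (pr k) ≤ δ * 2 ^ m)) hone
          (fun k hk => hlog_le k (Finset.mem_filter.1 hk).1)
      calc ∑ k ∈ (range (nn m)).filter (fun k => ¬ Real.log (pr k) ≤ δ * 2 ^ m),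
            (1 / pr k) * min 1 (xp / 2 ^ m * Real.log (pr k))
          ≤ ∑ k ∈ (range (nn m)).filter (fun k => ¬ Real.log (pr k) ≤ δ * 2 ^ m),
            1 / (δ * 2 ^ m) * (Real.log (pr k) / pr k) := by
            refine Finset.sum_le_sum fun k hk => ?_
            have hp0 := pr_pos k
            have hk2 := (Finset.mem_filter.1 hk).2
            push Not at hk2
            have h4 : 1 ≤ 1 / (δ * 2 ^ m) * Real.log (pr k) := by
              rw [one_div, inv_mul_eq_div, le_div_iff₀ (by positivity)]
              linarith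
            calc (1 / pr k) * min 1 (xp / 2 ^ m * Real.log (pr k))
                ≤ (1 / pr k) * 1 := by
                  gcongr
                  exact min_le_left _ _
              _ ≤ (1 / pr k) * (1 / (δ * 2 ^ m) * Real.log (pr k)) := by gcongr
              _ = _ := by ring
        _ = 1 / (δ * 2 ^ m) * ∑ k ∈ (range (nn m)).filter
            (fun k => ¬ Real.log (pr k) ≤ δ * 2 ^ m), (Real.log (pr k) / pr k) := by
              rw [Finset.mul_sum]
        _ ≤ 1 / (δ * 2 ^ m) * (C * 2 ^ m) := by gcongr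
        _ = C / δ := by field_simp
  have htot : b * ∑ k ∈ range (nn m),
      (1 / pr k - (conj (vs (pt 0 0 τ) k) * vs (pt l x t) k).re) ≤
        xp / 8 + b * (C / δ + 4 * C) := by
    have h3 : ∑ k ∈ range (nn m),
      (1 / pr k - (conj (vs (pt 0 0 τ) k) * vs (pt l x t) k).re) ≤
        2 * C * δ * xp + C / δ + 4 * C := by linarith
    calc b * ∑ k ∈ range (nn m),
          (1 / pr k - (conj (vs (pt 0 0 τ) k) * vs (pt l x t) k).re)
        ≤ b * (2 * C * δ * xp + C / δ + 4 * C) := by gcongr
      _ = (16 * b * C * δ) * xp / 8 + b * (C / δ + 4 * C) := by ring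
      _ = xp / 8 + b * (C / δ + 4 * C) := by
          have : 16 * b * C * δ = 1 := by rw [hδ]; field_simp
          rw [this]; ring
  rw [hnorm, ← Real.exp_add, ← Real.exp_add]
  apply Real.one_le_exp
  have h4 : xp / 8 ≤ x / 8 + 1 := by
    have : xp ≤ x + 1 := max_le (by linarith) (by linarith)
    linarith
  linarith

end Pool.Agent.W196.EMG2
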