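import Pool.Agent.W278.EM.Stms
import Pool.Agent.Helper873.Zeta

/-!
# EM-N and EM-N5: Mertens type facts
-/

set_option autoImplicit false
open Finset

namespace Pool.Agent.W196.EMN

open Pool.Agent.W278.EM Pool.Agent.Helper873.NT Pool.Agent.Helper873.Zeta
  Pool.Agent.Helper873.Embed

lemma two_le_pr (k : ℕ) : (2 : ℝ) ≤ pr k := two_le_p k

lemma pr_pos (k : ℕ) : 0 < pr k := by have := two_le_pr k; linarith

lemma log_pr_pos (k : ℕ) : 0 < Real.log (pr k) := Real.log_pos (by have := two_le_pr k; linarith)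

lemma prod_primes_eq (g : ℕ → ℝ) (M : ℕ) :
    ∏ j ∈ Finset.range (Nat.primeCounting' M), g (Nat.nth Nat.Prime j) =
      ∏ p ∈ Nat.primesBelow M, g p := by
  refine Finset.prod_nbij' (fun j => Nat.nth Nat.Prime j) (fun p => Nat.count Nat.Prime p)
    ?_ ?_ ?_ ?_ ?_
  · intro j hj
    rw [Nat.mem_primesBelow]
    exact ⟨Nat.nth_lt_of_lt_count (Finset.mem_range.1 hj), Nat.prime_nth_prime j⟩
  · intro p hp
    rw [Nat.mem_primesBelow] at hp
    rw [Finset.mem_range]
    exact Nat.count_strict_mono hp.2 hp.1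
  · intro j _
    exact Nat.primeCounting'_nth_eq j
  · intro p hp
    exact Nat.nth_count (Nat.prime_of_mem_primesBelow hp)
  · intro j _
    rfl

/-- `sum_log` for the first `n` primes -/
lemma sum_log_range (n : ℕ) (s : ℝ) (hs : 0 < s) (hs1 : s ≤ 1) :
    ∑ k ∈ range n, Real.log (pr k) * (pr k) ^ (-(1 + s)) ≤ 4 / s := by
  have h := sum_primes_eq (fun p : ℕ => Real.log p * (p : ℝ) ^ (-(1 + s))) (Nat.nth Nat.Prime n)
  rw [Nat.primeCounting'_nth_eq] at h
  unfold pr
  rw [h]
  exact sum_log _ s hs hs1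

theorem sn2 : SN2 := by
  refine ⟨12, by norm_num, fun Y n hY hn => ?_⟩
  have hY0 : 0 < Y := by linarith
  have h1 := sum_log_range n (1 / Y) (by positivity) (by rw [div_le_one hY0]; exact hY)
  have h2 : ∀ k ∈ range n, Real.log (pr k) / pr k ≤
      3 * (Real.log (pr k) * (pr k) ^ (-(1 + 1 / Y))) := by
    intro k hk
    have hp0 := pr_pos k
    have hlog := log_pr_pos k
    have hk' := hn k (mem_range.1 hk)
    have h3 : (pr k)⁻¹ = (pr k) ^ (1 / Y) * (pr k) ^ (-(1 + 1 / Y)) := by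
      rw [← Real.rpow_add hp0, ← Real.rpow_neg_one]; congr 1; ring
    have h4 : (pr k) ^ (1 / Y) ≤ 3 := by
      rw [Real.rpow_def_of_pos hp0]
      have h5 : Real.log (pr k) * (1 / Y) ≤ 1 := by
        rw [mul_one_div, div_le_one hY0]; exact hk'
      have h6 := Real.exp_le_exp.2 h5
      have h7 := Real.exp_one_lt_d9
      linarith
    have h8 : 0 < (pr k) ^ (-(1 + 1 / Y)) := by positivity
    rw [div_eq_mul_inv, h3]
    calc Real.log (pr k) * ((pr k) ^ (1 / Y) * (pr k) ^ (-(1 + 1 / Y)))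
        ≤ Real.log (pr k) * (3 * (pr k) ^ (-(1 + 1 / Y))) := by gcongr
      _ = _ := by ring
  refine (Finset.sum_le_sum h2).trans ?_
  rw [← Finset.mul_sum]
  calc 3 * ∑ k ∈ range n, Real.log (pr k) * (pr k) ^ (-(1 + 1 / Y)) ≤ 3 * (4 / (1 / Y)) := by
        gcongr
    _ = 12 * Y := by field_simp; ring

theorem sn5 : SN5 := by
  refine ⟨Real.log 4 * Real.exp 2, by positivity, fun y K hy hK => ?_⟩
  have hy0 : 0 < y := by linarith
  have hinj : Set.InjOn (fun k : ℕ => Nat.nth Nat.Prime k) (K : Set ℕ) :=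
    (Nat.nth_injective Nat.infinite_setOf_prime).injOn
  have h1 : ∑ k ∈ K, Real.log (pr k) ≤ Real.log 4 * Real.exp (y + 2) := by
    refine le_trans ?_ (Chebyshev.theta_le_log4_mul_x (Real.exp_pos (y + 2)).le)
    rw [Chebyshev.theta]
    have e : ∑ k ∈ K, Real.log (pr k) =
        ∑ p ∈ K.image (fun k : ℕ => Nat.nth Nat.Prime k), Real.log (p : ℝ) := by
      rw [Finset.sum_image hinj]
      rfl
    rw [e]
    refine Finset.sum_le_sum_of_subset_of_nonneg ?_ ?_
    · intro p hp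
      obtain ⟨k, hk, rfl⟩ := Finset.mem_image.1 hp
      rw [Finset.mem_filter, Finset.mem_Ioc]
      refine ⟨⟨(Nat.prime_nth_prime k).pos, ?_⟩, Nat.prime_nth_prime k⟩
      rw [Nat.le_floor_iff (Real.exp_pos _).le]
      exact (Real.log_le_iff_le_exp (pr_pos k)).1 (hK k hk).2
    · intro p hp _
      rw [Finset.mem_filter] at hp
      exact Real.log_nonneg (by exact_mod_cast hp.2.one_lt.le)
  have h2 : ∀ k ∈ K, 1 / pr k ≤ Real.exp (-y) / y * Real.log (pr k) := by
    intro k hk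
    have hp0 := pr_pos k
    have h3 := (hK k hk).1
    have h4 : (pr k)⁻¹ ≤ Real.exp (-y) := by
      rw [Real.exp_neg]
      exact inv_anti₀ (Real.exp_pos _) ((Real.le_log_iff_exp_le hp0).1 h3)
    have h5 : 1 ≤ Real.log (pr k) / y := by
      rw [le_div_iff₀ hy0]; linarith
    calc 1 / pr k = (pr k)⁻¹ * 1 := by rw [one_div, mul_one]
      _ ≤ Real.exp (-y) * (Real.log (pr k) / y) := by gcongr
      _ = _ := by ring
  refine (Finset.sum_le_sum h2).trans ?_
  rw [← Finset.mul_sum]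
  calc Real.exp (-y) / y * ∑ k ∈ K, Real.log (pr k)
      ≤ Real.exp (-y) / y * (Real.log 4 * Real.exp (y + 2)) := by gcongr
    _ = Real.log 4 * (Real.exp (-y) * Real.exp (y + 2)) / y := by ring
    _ = Real.log 4 * Real.exp 2 / y := by
        rw [← Real.exp_add]; congr 3; ring

lemma Z_range (b : ℕ) (s : ℝ) :
    ∏ k ∈ range (NN b), (1 - pr k ^ (-(1 + s)))⁻¹ = Z ⌊Real.exp b⌋₊ s := by
  unfold Z NN
  exact prod_primes_eq (fun p : ℕ => (1 - (p : ℝ) ^ (-(1 + s)))⁻¹) _

theorem sn4 : SN4 := by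
  refine ⟨2 * Real.exp (24 * Real.exp (3 / 2)), by positivity, fun l x hx => ?_⟩
  set s : ℝ := 1 / 2 ^ l with hs
  have hs0 : 0 < s := by positivity
  have hs1 : s ≤ 1 := by
    rw [hs, div_le_one (by positivity)]
    exact one_le_pow₀ (by norm_num)
  have hZ : ∏ k ∈ range (nn l), (1 - pr k ^ (-(1 + s)))⁻¹ ≤ 2 * 2 ^ l := by
    unfold nn
    rw [Z_range]
    refine (Z_upper _ s hs0).trans ?_
    have h1 : 1 / s = 2 ^ l := by rw [hs]; simp
    have h2 : (1 : ℝ) ≤ 2 ^ l := one_le_pow₀ (by norm_num)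
    rw [h1]; linarith
  -- termwise comparison
  have hterm : ∀ k ∈ range (nn l), (1 - pr k ^ (-(1 + 2 * x / 2 ^ l)))⁻¹ ≤
      (1 - pr k ^ (-(1 + s)))⁻¹ *
        Real.exp (6 * Real.exp (3 / 2) * s * (Real.log (pr k) * pr k ^ (-(1 + s)))) := by
    intro k hk
    have hp0 := pr_pos k
    have hp2 := two_le_pr k
    have hlog := log_pr_pos k
    have hk' : Real.log (pr k) ≤ 2 ^ l := by
      have := log_p_le (2 ^ l) k (mem_range.1 hk)
      unfold pr
      exact_mod_cast this
    set v := pr k ^ (-(1 + s)) with hv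
    set u := pr k ^ (-(1 - s / 2)) with hu
    have v0 : 0 < v := Real.rpow_pos_of_pos hp0 _
    have hslog : s * Real.log (pr k) ≤ 1 := by
      rw [hs, div_mul_eq_mul_div, one_mul, div_le_one (by positivity)]
      exact hk'
    have hslog0 : 0 ≤ s * Real.log (pr k) := by positivity
    -- u ≤ 3/4
    have hu34 : u ≤ 3 / 4 := by
      have h1 : u ≤ pr k ^ (-(1 / 2) : ℝ) :=
        Real.rpow_le_rpow_of_exponent_le (by linarith) (by linarith)
      have h2 : pr k ^ (-(1 / 2) : ℝ) ≤ (2 : ℝ) ^ (-(1 / 2) : ℝ) :=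
        Real.rpow_le_rpow_of_nonpos (by norm_num) hp2 (by norm_num)
      have h3 : (2 : ℝ) ^ (-(1 / 2) : ℝ) ≤ 3 / 4 := by
        rw [Real.rpow_neg (by norm_num), ← Real.sqrt_eq_rpow]
        have h4 : (4 / 3 : ℝ) ≤ Real.sqrt 2 := Real.le_sqrt_of_sq_le (by norm_num)
        calc (Real.sqrt 2)⁻¹ ≤ (4 / 3 : ℝ)⁻¹ := inv_anti₀ (by norm_num) h4
          _ = 3 / 4 := by norm_num
      linarith
    have hle : pr k ^ (-(1 + 2 * x / 2 ^ l)) ≤ u := by
      refine Real.rpow_le_rpow_of_exponent_le (by linarith) ?_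
      have : 2 * x / 2 ^ l = 2 * x * s := by rw [hs]; ring
      rw [this]
      nlinarith
    have huv : u = v * Real.exp (3 / 2 * (s * Real.log (pr k))) := by
      rw [hu, hv, Real.rpow_def_of_pos hp0, Real.rpow_def_of_pos hp0, ← Real.exp_add]
      congr 1; ring
    have hexp : Real.exp (3 / 2 * (s * Real.log (pr k))) - 1 ≤
        3 / 2 * (s * Real.log (pr k)) * Real.exp (3 / 2) := by
      set t := 3 / 2 * (s * Real.log (pr k)) with ht
      have h1 := Real.add_one_le_exp (-t)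
      have h2 : Real.exp t - 1 ≤ t * Real.exp t := by
        have h3 : Real.exp t * Real.exp (-t) = 1 := by rw [← Real.exp_add]; simp
        nlinarith [Real.exp_pos t]
      have h4 : Real.exp t ≤ Real.exp (3 / 2) := Real.exp_le_exp.2 (by linarith)
      have ht0 : 0 ≤ t := by positivity
      calc Real.exp t - 1 ≤ t * Real.exp t := h2
        _ ≤ t * Real.exp (3 / 2) := by gcongr
    have hsub : u - v ≤ 3 / 2 * Real.exp (3 / 2) * s * (Real.log (pr k) * v) := by
      rw [huv]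
      have : v * Real.exp (3 / 2 * (s * Real.log (pr k))) - v =
        v * (Real.exp (3 / 2 * (s * Real.log (pr k))) - 1) := by ring
      rw [this]
      calc v * (Real.exp (3 / 2 * (s * Real.log (pr k))) - 1)
          ≤ v * (3 / 2 * (s * Real.log (pr k)) * Real.exp (3 / 2)) := by gcongr
        _ = _ := by ring
    have hvu : v ≤ u := by
      refine Real.rpow_le_rpow_of_exponent_le (by linarith) ?_
      linarith
    have h1u : 0 < 1 - u := by linarith
    have h1v : 0 < 1 - v := by linarith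
    calc (1 - pr k ^ (-(1 + 2 * x / 2 ^ l)))⁻¹ ≤ (1 - u)⁻¹ := inv_anti₀ h1u (by linarith)
      _ = (1 - v)⁻¹ * (1 + (u - v) / (1 - u)) := by field_simp; ring
      _ ≤ (1 - v)⁻¹ * Real.exp (6 * Real.exp (3 / 2) * s * (Real.log (pr k) * v)) := by
          refine mul_le_mul_of_nonneg_left ?_ (by positivity)
          have h5 : (u - v) / (1 - u) ≤ 4 * (u - v) := by
            rw [div_le_iff₀ h1u]
            nlinarith
          have h6 := Real.add_one_le_exp (6 * Real.exp (3 / 2) * s * (Real.log (pr k) * v))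
          nlinarith
  have hpos : ∀ k ∈ range (nn l), 0 ≤ (1 - pr k ^ (-(1 + 2 * x / 2 ^ l)))⁻¹ := by
    intro k _
    have h1 : pr k ^ (-(1 + 2 * x / 2 ^ l)) ≤ 1 := by
      refine Real.rpow_le_one_of_one_le_of_nonpos (by have := two_le_pr k; linarith) ?_
      have : 2 * x / 2 ^ l = 2 * x * s := by rw [hs]; ring
      rw [this]
      nlinarith
    exact inv_nonneg.2 (by linarith)
  refine (Finset.prod_le_prod hpos hterm).trans ?_
  rw [Finset.prod_mul_distrib, ← Real.exp_sum, ← Finset.mul_sum]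
  have h9 := sum_log_range (nn l) s hs0 hs1
  have h10 : 6 * Real.exp (3 / 2) * s * ∑ k ∈ range (nn l), Real.log (pr k) * pr k ^ (-(1 + s)) ≤
      24 * Real.exp (3 / 2) := by
    calc 6 * Real.exp (3 / 2) * s * ∑ k ∈ range (nn l), Real.log (pr k) * pr k ^ (-(1 + s))
        ≤ 6 * Real.exp (3 / 2) * s * (4 / s) := by gcongr
      _ = 24 * Real.exp (3 / 2) := by field_simp; ring
  have h11 := Real.exp_le_exp.2 h10
  have hZ0 : 0 ≤ ∏ k ∈ range (nn l), (1 - pr k ^ (-(1 + s)))⁻¹ := by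
    refine Finset.prod_nonneg fun k _ => ?_
    have h1 : pr k ^ (-(1 + s)) ≤ 1 :=
      Real.rpow_le_one_of_one_le_of_nonpos (by have := two_le_pr k; linarith) (by linarith)
    exact inv_nonneg.2 (by linarith)
  calc (∏ k ∈ range (nn l), (1 - pr k ^ (-(1 + s)))⁻¹) *
        Real.exp (6 * Real.exp (3 / 2) * s *
          ∑ k ∈ range (nn l), Real.log (pr k) * pr k ^ (-(1 + s)))
      ≤ (2 * 2 ^ l) * Real.exp (24 * Real.exp (3 / 2)) := by gcongr
    _ = _ := by ring

lemma telescope (n : ℕ) : ∑ k ∈ range n, 1 / (((k : ℝ) + 2) * (k + 1)) = 1 - 1 / (n + 1) := by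
  induction n with
  | zero => simp
  | succ n ih =>
    rw [sum_range_succ, ih]
    push_cast
    field_simp
    ring

theorem sn1 : SN1 := by
  refine ⟨20, by norm_num, fun m => ?_⟩
  set s : ℝ := 1 / 2 ^ m with hs
  have hs0 : 0 < s := by positivity
  have hs1 : s ≤ 1 := by
    rw [hs, div_le_one (by positivity)]
    exact one_le_pow₀ (by norm_num)
  set M := ⌊Real.exp ((2 ^ m : ℕ) : ℝ)⌋₊ with hM
  have hb1 : (1 : ℝ) ≤ ((2 ^ m : ℕ) : ℝ) := by
    exact_mod_cast Nat.one_le_two_pow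
  have hexp2 : (2 : ℝ) ≤ Real.exp ((2 ^ m : ℕ) : ℝ) := by
    have := Real.add_one_le_exp ((2 ^ m : ℕ) : ℝ)
    linarith
  have hM1 : 1 ≤ M := by
    rw [hM, Nat.one_le_floor_iff]; linarith
  have hMr : Real.exp ((2 ^ m : ℕ) : ℝ) / 2 ≤ M := by
    have h1 : Real.exp ((2 ^ m : ℕ) : ℝ) < M + 1 := Nat.lt_floor_add_one _
    linarith
  have hM0 : (0 : ℝ) < M := by exact_mod_cast hM1
  have hlogM : ((2 ^ m : ℕ) : ℝ) - Real.log 2 ≤ Real.log M := by
    have h1 := Real.log_le_log (by positivity) hMr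
    rw [Real.log_div (by positivity) (by norm_num), Real.log_exp] at h1
    exact h1
  have hlog2 : Real.log 2 < 0.7 := by
    have := Real.log_two_lt_d9; linarith
  have hMs : (M : ℝ) ^ (-s) ≤ 3 / 4 := by
    rw [Real.rpow_def_of_pos hM0]
    have h1 : Real.log M * -s ≤ -0.3 := by
      have h2 : s * ((2 ^ m : ℕ) : ℝ) = 1 := by
        rw [hs]; push_cast; field_simp
      have h3 : s * (((2 ^ m : ℕ) : ℝ) - Real.log 2) ≤ s * Real.log M := by gcongr
      have h4 : s * Real.log 2 ≤ 0.7 := by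
        have h5 : 0 < Real.log 2 := Real.log_pos (by norm_num)
        nlinarith
      nlinarith
    refine (Real.exp_le_exp.2 h1).trans ?_
    rw [Real.exp_neg, inv_le_comm₀ (Real.exp_pos _) (by norm_num)]
    have h6 := Real.quadratic_le_exp_of_nonneg (show (0 : ℝ) ≤ 0.3 by norm_num)
    norm_num at h6 ⊢
    linarith
  have hZ : 2 ^ m / 4 ≤ Z M s := by
    refine le_trans ?_ (Z_lower M hM1 s hs0)
    rw [le_div_iff₀ hs0, hs]
    have : (2 : ℝ) ^ m / 4 * (1 / 2 ^ m) = 1 / 4 := by field_simp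
    rw [this, ← hs]
    linarith
  have hterm : ∀ k ∈ range (nn m), (1 - pr k ^ (-(1 + s)))⁻¹ ≤
      Real.exp (1 / pr k + 1 / (((k : ℝ) + 2) * (k + 1))) := by
    intro k _
    have hp0 := pr_pos k
    have hp2 := two_le_pr k
    have hk2 : (k : ℝ) + 2 ≤ pr k := by
      have := Nat.add_two_le_nth_prime k
      unfold pr
      exact_mod_cast this
    have h1 : pr k ^ (-(1 + s)) ≤ (pr k)⁻¹ := by
      rw [← Real.rpow_neg_one]
      exact Real.rpow_le_rpow_of_exponent_le (by linarith) (by linarith)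
    have h2 : (pr k)⁻¹ ≤ 1 / 2 := by
      rw [one_div]; exact inv_anti₀ (by norm_num) hp2
    have hk0 : (0 : ℝ) ≤ k := by positivity
    calc (1 - pr k ^ (-(1 + s)))⁻¹ ≤ (1 - (pr k)⁻¹)⁻¹ := inv_anti₀ (by linarith) (by linarith)
      _ = 1 + 1 / (pr k - 1) := by
          have : pr k - 1 ≠ 0 := by linarith
          have h5 : pr k ≠ 0 := by linarith
          have h6 : 1 - (pr k)⁻¹ = (pr k - 1) / pr k := by field_simp
          rw [h6, inv_div]
          field_simp
          ring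
      _ = 1 + (1 / pr k + 1 / (pr k * (pr k - 1))) := by
          have : pr k - 1 ≠ 0 := by linarith
          have h5 : pr k ≠ 0 := by linarith
          field_simp
          ring
      _ ≤ 1 + (1 / pr k + 1 / (((k : ℝ) + 2) * (k + 1))) := by
          have : ((k : ℝ) + 2) * (k + 1) ≤ pr k * (pr k - 1) := by
            apply mul_le_mul hk2 (by linarith) (by positivity) (by linarith)
          gcongr
      _ ≤ _ := by
          have := Real.add_one_le_exp (1 / pr k + 1 / (((k : ℝ) + 2) * (k + 1)))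
          linarith
  have hpos : ∀ k ∈ range (nn m), 0 ≤ (1 - pr k ^ (-(1 + s)))⁻¹ := by
    intro k _
    have h1 : pr k ^ (-(1 + s)) ≤ 1 :=
      Real.rpow_le_one_of_one_le_of_nonpos (by have := two_le_pr k; linarith) (by linarith)
    exact inv_nonneg.2 (by linarith)
  have hprod := Finset.prod_le_prod hpos hterm
  rw [← Real.exp_sum, Finset.sum_add_distrib, telescope] at hprod
  have hZr : ∏ k ∈ range (nn m), (1 - pr k ^ (-(1 + s)))⁻¹ = Z M s := by
    unfold nn
    exact Z_range (2 ^ m) s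
  rw [hZr] at hprod
  have h20 : Real.exp (∑ k ∈ range (nn m), 1 / pr k + (1 - 1 / ((nn m : ℝ) + 1))) ≤
      Real.exp (Hm m) * 3 := by
    have h1 : Real.exp (∑ k ∈ range (nn m), 1 / pr k + (1 - 1 / ((nn m : ℝ) + 1))) ≤
        Real.exp (Hm m + 1) := by
      apply Real.exp_le_exp.2
      have : 0 ≤ 1 / ((nn m : ℝ) + 1) := by positivity
      unfold Hm
      linarith
    refine h1.trans ?_
    rw [Real.exp_add]
    have := Real.exp_one_lt_d9
    gcongr
    linarith
  have h21 : 2 ^ m / 4 ≤ Real.exp (Hm m) * 3 := hZ.trans (hprod.trans h20)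
  rw [Real.exp_neg, inv_le_comm₀ (Real.exp_pos _) (by positivity), inv_div]
  have h22 : (0 : ℝ) < 2 ^ m := by positivity
  linarith

end Pool.Agent.W196.EMN
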